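import Pool.Agent.PosLT.L

/-!
The positive-density Lieb-Thirring inequality in dimension one holds for every exponent `γ > 1`,
without logarithmic correction.
-/

open MeasureTheory Pool.Agent.PosLT

/-- For every `γ > 1` there is a constant `C` such that for all `μ > 0` and all real `V ∈ L²(ℝ)`:
the Schroedinger operator `H = -d²/dx² + V` exists (through its resolvents, which are unique), the
operator `D = (H-μ)_-^γ - (H₀-μ)_-^γ + γ (H₀-μ)_-^(γ-1) V` is a well defined bounded operator, it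
has a regularised trace `T` (limit of the traces of `η(εx) D η(εx)` for every cutoff `η`), which is
the trace of `D` whenever `D` is trace class, and
`T ≤ C ∫ ((V-μ)_-^(γ+1/2) - μ^(γ+1/2) + (γ+1/2) μ^(γ-1/2) V)` whenever the integral is finite. -/
theorem Pool.Agent.Results.MP_1963ae_mp.PosLTOneDim.result (γ : ℝ) (hγ : 1 < γ) :
    ∃ C : ℝ, 0 < C ∧ ∀ μ : ℝ, 0 < μ → ∀ V : ℝ → ℝ, MemLp V 2 volume →
      (∃ s₀ : ℝ, ∀ s : ℝ, s₀ ≤ s →
        (∃! R : L2 →L[ℂ] L2, IsResolvent V s R) ∧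
        (∃! R₀ : L2 →L[ℂ] L2, IsResolvent 0 s R₀)) ∧
      ∃ T : ℝ,
        (∀ (s : ℝ) (R R₀ : L2 →L[ℂ] L2), IsResolvent V s R → IsResolvent 0 s R₀ →
          (∃! D : L2 →L[ℂ] L2, IsInside γ μ V s R R₀ D) ∧
          ∀ D : L2 →L[ℂ] L2, IsInside γ μ V s R R₀ D →
            HasRegTrace D T ∧ ∀ t : ℂ, HasTrace D t → t = T) ∧
        (Integrable (fun x => rhsDens γ μ (V x)) volume →
          T ≤ C * ∫ x, rhsDens γ μ (V x)) :=
  J.posLT γ hγ
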